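import Pool.Agent.H61.NVK.TargetsE1
import Pool.Agent.H14.CM4.CTPE

/-!
# MP_347b49_nt, part E: row ZPR, translations and units
-/

set_option autoImplicit false

open MeasureTheory Set Filter NumberField NumberField.InfinitePlace
open Pool.Agent.H65.CM4 Pool.Agent.H61.NVK
open scoped Real nonZeroDivisors

namespace Pool.Agent.H34.NVE_ZPR

lemma tsum_if {α : Type} (P : α → Prop) [DecidablePred P] (F : α → ℝ) :
    (∑' u, if P u then F u else 0) = ∑' u : {u // P u}, F u := by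
  refine Eq.trans (tsum_congr fun u => ?_) (tsum_subtype {u | P u} F).symm
  by_cases h : P u
  · rw [if_pos h, Set.indicator_of_mem (show u ∈ {u | P u} from h)]
  · rw [if_neg h, Set.indicator_of_notMem (show u ∉ {u | P u} from h)]

lemma sD_unit {k : Type} [Field k] [NumberField k] [IsTotallyReal k] (D : Pl k → ℝ)
    (ε : (𝓞 k)ˣ) : sD (fun v => rv v ((ε : 𝓞 k) : k) ^ 2 * D v) = sD D := by
  unfold sD
  rw [Finset.prod_mul_distrib]
  have h1 : ∏ v : Pl k, rv v ((ε : 𝓞 k) : k) ^ 2 = 1 := by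
    have h2 : ∀ v : Pl k, rv v ((ε : 𝓞 k) : k) ^ 2 = |rv v ((ε : 𝓞 k) : k)| ^ 2 := fun v =>
      (sq_abs _).symm
    rw [Finset.prod_congr rfl fun v _ => h2 v, Finset.prod_pow,
      Pool.Agent.H14.CM4.prod_unit, one_pow]
  rw [h1, one_mul]

theorem pf_ZPR (hEPQ : T_EPQ) : T_ZPR := by
  classical
  intro k _ _ _ A f b D r ε hD hr
  unfold zf
  refine Finset.sum_congr rfl fun c _ => ?_
  have hr' : r ∈ ((A * f : (Ideal (𝓞 k))⁰) : Ideal (𝓞 k)) := hr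
  obtain ⟨e, he⟩ := hEPQ k (cr c) (A * f) r ε hr'
  refine Eq.trans (tsum_if (fun u : V2 k => u ∈ Lb (ci c) ((A : Ideal (𝓞 k)) *
    (f : Ideal (𝓞 k))) ∧ u ∈ Fo k) _) (Eq.trans ?_ (tsum_if (fun u : V2 k =>
    u ∈ Lb (ci c) ((A : Ideal (𝓞 k)) * (f : Ideal (𝓞 k))) ∧ u ∈ Fo k) _).symm)
  rw [sD_unit]
  have h1 : ∀ u : {u : V2 k // u ∈ Lb (ci c) ((A : Ideal (𝓞 k)) * (f : Ideal (𝓞 k))) ∧ u ∈ Fo k},
      nf (ci c) (A : Ideal (𝓞 k)) f (fun v => rv v ((ε : 𝓞 k) : k) * b v + 2 * rv v (r : k))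
        (fun v => rv v ((ε : 𝓞 k) : k) ^ 2 * D v) (u : V2 k) =
      nf (ci c) (A : Ideal (𝓞 k)) f b D (e u : V2 k) := by
    intro u
    unfold nf
    rw [he b D u]
  simp only [h1]
  exact Equiv.tsum_eq e (fun u : {u : V2 k // u ∈ Lb (ci c) ((A : Ideal (𝓞 k)) *
    (f : Ideal (𝓞 k))) ∧ u ∈ Fo k} => 2 * Vk k (nf (ci c) (A : Ideal (𝓞 k)) f b D (u : V2 k) *
      nm (f : Ideal (𝓞 k)) / sD D) / Real.sqrt (nf (ci c) (A : Ideal (𝓞 k)) f b D (u : V2 k)))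

end Pool.Agent.H34.NVE_ZPR
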